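import Mathlib

set_option autoImplicit false

namespace Pool.Agent.Results.MP_8d849c_gt.NotProductive

open Set Topology Filter

/-- nonempty compact saturated set. -/
def CompSat {X : Type} [TopologicalSpace X] (K : Set X) : Prop :=
  K.Nonempty ∧ IsCompact K ∧ K = ⋂₀ {U | IsOpen U ∧ K ⊆ U}

/-- k-irreducible compact saturated set. -/
def KIrreducible {X : Type} [TopologicalSpace X] (G : Set X) : Prop :=
  CompSat G ∧ ∀ K₁ K₂ : Set X, CompSat K₁ → CompSat K₂ → G = K₁ ∪ K₂ → G = K₁ ∨ G = K₂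

/-- co-sober space. -/
def CoSober (X : Type) [TopologicalSpace X] : Prop :=
  T0Space X ∧ ∀ G : Set X, KIrreducible G → ∃ k : X, G = {y | k ∈ closure {y}}

lemma sat_t1 {X : Type} [TopologicalSpace X] [T1Space X] (K : Set X) :
    K = ⋂₀ {U | IsOpen U ∧ K ⊆ U} := by
  refine subset_antisymm (fun x hx U hU => hU.2 hx) fun x hx => ?_
  by_contra h
  exact hx {x}ᶜ ⟨isOpen_compl_singleton, subset_compl_singleton_iff.2 h⟩ rfl

lemma up_t1 {X : Type} [TopologicalSpace X] [T1Space X] (k : X) :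
    {y | k ∈ closure {y}} = {k} := by
  ext y; simp [eq_comm]

lemma cosober_of {X : Type} [TopologicalSpace X] [T1Space X] (h : ∀ K : Set X, IsCompact K) :
    CoSober X := by
  refine ⟨inferInstance, fun G hG => ?_⟩
  obtain ⟨a, ha⟩ := hG.1.1
  refine ⟨a, ?_⟩
  rw [up_t1]
  by_contra hne
  have h1 : (G \ {a}).Nonempty := by
    rw [nonempty_iff_ne_empty, Ne, sdiff_eq_empty]
    exact fun h => hne (subset_antisymm h (singleton_subset_iff.2 ha))
  rcases hG.2 {a} (G \ {a}) ⟨singleton_nonempty a, h _, sat_t1 _⟩ ⟨h1, h _, sat_t1 _⟩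
    (by rw [union_sdiff_self, union_eq_self_of_subset_left (singleton_subset_iff.2 ha)]) with h | h
  · exact hne h
  · exact (h ▸ ha : a ∈ G \ {a}).2 rfl

abbrev B : Type := ℕ → Bool

open Classical in
noncomputable def phi (r : B) : B := fun n => decide (∀ᶠ k in atTop, r (Nat.pair n k) = true)

lemma phi_dense {J : Set B} (hJ : IsOpen J) (hne : J.Nonempty) (t : B) : ∃ r ∈ J, phi r = t := by
  classical
  obtain ⟨r, hr⟩ := hne
  obtain ⟨F, u, hu, hF⟩ := isOpen_pi_iff.1 hJ r hr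
  refine ⟨fun i => if i ∈ F then r i else t i.unpair.1, hF fun i hi => ?_, funext fun n => ?_⟩
  · simpa [show i ∈ F from hi] using (hu i hi).2
  · have h1 : ∀ᶠ k in atTop, Nat.pair n k ∉ F := by
      rw [← Nat.cofinite_eq_atTop]
      refine (F.finite_toSet.preimage (f := Nat.pair n) fun a _ b _ h =>
        (Nat.pair_eq_pair.1 h).2).subset fun k hk => ?_
      simpa using hk
    have h2 : (∀ᶠ k in atTop, (if Nat.pair n k ∈ F then r (Nat.pair n k)
        else t (Nat.pair n k).unpair.1) = true) ↔ t n = true := by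
      rw [eventually_congr (q := fun _ => t n = true) (h1.mono fun k hk => by simp [hk])]
      exact eventually_const
    simp only [phi, h2]
    simp

def Cl (C : Set B) : Prop := ∀ r, r ∈ closure (C \ {r}) → phi r ∈ C

lemma Cl.univ_of {C J : Set B} (hC : Cl C) (hJ : IsOpen J) (hne : J.Nonempty)
    (h : J ⊆ closure C) : C = univ := by
  refine eq_univ_of_forall fun t => ?_
  obtain ⟨r, hr, rfl⟩ := phi_dense hJ hne t
  refine hC r (mem_closure_iff.2 fun U hU hrU => ?_)
  obtain ⟨s, hs, hs'⟩ := phi_dense (hU.inter hJ) ⟨r, hrU, hr⟩ (fun n => !(phi r n))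
  have hsr : s ≠ r := by
    rintro rfl
    simpa using congrFun hs' 0
  obtain ⟨x, h1, h2⟩ := mem_closure_iff.1 (h hs.2) _ (hU.inter isOpen_compl_singleton) ⟨hs.1, hsr⟩
  exact ⟨x, h1.1, h2, h1.2⟩

lemma Cl.irr {C D : Set B} (hC : Cl C) (hD : Cl D) (h : C ∪ D = univ) : C = univ ∨ D = univ := by
  by_cases h1 : (closure D)ᶜ.Nonempty
  · refine Or.inl (hC.univ_of isClosed_closure.isOpen_compl h1 fun x hx => subset_closure ?_)
    exact (h ▸ mem_univ x : x ∈ C ∪ D).resolve_right fun h => hx (subset_closure h)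
  · refine Or.inr (hD.univ_of isOpen_univ univ_nonempty fun x _ => ?_)
    by_contra h2
    exact h1 ⟨x, h2⟩

lemma Cl_seq {a : ℕ → B} {r : B} (h : Tendsto a atTop (𝓝 r)) : Cl (insert (phi r) (range a)) := by
  intro s hs
  by_cases hsr : s = r
  · exact Or.inl (hsr ▸ rfl)
  exfalso
  obtain ⟨U, V, hU, hV, h1, h2, hd⟩ := t2_separation hsr
  obtain ⟨N, hN⟩ := eventually_atTop.1 (h.eventually (hV.mem_nhds h2))
  have hf : (insert (phi r) (a '' Iio N) \ {s}).Finite :=
    (((finite_Iio N).image a).insert _).subset sdiff_subset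
  obtain ⟨x, ⟨h3, h4⟩, h5, h6⟩ := mem_closure_iff.1 hs _ (hU.inter hf.isClosed.isOpen_compl)
    ⟨h1, fun h => h.2 rfl⟩
  refine h4 ⟨h5.imp id ?_, h6⟩
  rintro ⟨n, rfl⟩
  refine ⟨n, ?_, rfl⟩
  by_contra hn
  exact disjoint_left.1 hd h3 (hN n (not_lt.1 hn))

def XC (_ : {C // Cl C}) : Type := B

instance (C : {C // Cl C}) : TopologicalSpace (XC C) :=
  TopologicalSpace.generateFrom (insert C.1ᶜ (range fun x : B => {x}ᶜ))

instance (C : {C // Cl C}) : T1Space (XC C) :=
  ⟨fun x => ⟨TopologicalSpace.isOpen_generateFrom_of_mem (Or.inr ⟨x, rfl⟩)⟩⟩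

lemma XC_compact (C : {C // Cl C}) (K : Set (XC C)) : IsCompact K := by
  refine isCompact_generateFrom rfl fun P hP hK => ?_
  by_cases h : ∃ x : B, {x}ᶜ ∈ P
  · obtain ⟨x, hx⟩ := h
    by_cases hxK : x ∈ K
    · obtain ⟨S, hS, hxS⟩ := hK hxK
      refine ⟨{{x}ᶜ, S}, insert_subset hx (singleton_subset_iff.2 hS), toFinite _, fun y _ => ?_⟩
      by_cases hy : y = x
      · exact ⟨S, Or.inr rfl, hy ▸ hxS⟩
      · exact ⟨_, Or.inl rfl, hy⟩
    · exact ⟨{{x}ᶜ}, singleton_subset_iff.2 hx, toFinite _, fun y hy =>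
        ⟨_, rfl, fun (h : y = x) => hxK (h ▸ hy)⟩⟩
  · refine ⟨P, subset_rfl, (finite_singleton C.1ᶜ).subset fun S hS => ?_, hK⟩
    rcases hP hS with h1 | ⟨x, rfl⟩
    · exact h1
    · exact absurd ⟨x, hS⟩ h

def G : Type := B

def dg (x : G) : ∀ C, XC C := fun _ => x

instance : TopologicalSpace G := TopologicalSpace.induced dg inferInstance

lemma dg_ind : IsInducing dg := ⟨rfl⟩

lemma closedG {C : Set B} (hC : Cl C) : IsClosed (X := G) C := by
  have h1 : IsOpen (X := XC ⟨C, hC⟩) Cᶜ := TopologicalSpace.isOpen_generateFrom_of_mem (Or.inl rfl)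
  exact ⟨h1.preimage ((continuous_apply (⟨C, hC⟩ : {C // Cl C})).comp dg_ind.continuous)⟩

lemma G_compact : IsCompact (univ : Set G) := by
  refine isCompact_iff_ultrafilter_le_nhds.2 fun u _ => ?_
  by_cases h : ∃ x, {x} ∈ u
  · obtain ⟨x, hx⟩ := h
    exact ⟨x, trivial, (le_pure_iff.2 hx).trans (pure_le_nhds x)⟩
  push Not at h
  obtain ⟨r, -, hr⟩ := isCompact_iff_ultrafilter_le_nhds.1 (isCompact_univ (X := B)) u (by simp)
  refine ⟨phi r, trivial, ?_⟩
  refine dg_ind.tendsto_nhds_iff.2 (tendsto_pi_nhds.2 fun C => ?_)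
  refine TopologicalSpace.tendsto_nhds_generateFrom_iff.2 ?_
  rintro S (rfl | ⟨x, rfl⟩) hS
  · refine Ultrafilter.compl_mem_iff_notMem.2 fun hC => hS (C.2 r ?_)
    exact mem_closure_of_tendsto (f := id) (b := (u : Filter G)) hr
      (inter_mem hC (Ultrafilter.compl_mem_iff_notMem.2 (h r)))
  · exact Ultrafilter.compl_mem_iff_notMem.2 (h x)

lemma Cl_of_compact {K : Set G} (hK : IsCompact K) : Cl K := by
  intro r hr
  obtain ⟨a, ha, har⟩ := mem_closure_iff_seq_limit.1 hr
  by_contra hcon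
  obtain ⟨m, hm⟩ := hK.elim_directed_family_closed
    (fun m => insert (phi r) (range fun n => a (n + m)))
    (fun m => closedG (Cl_seq (har.comp (tendsto_add_atTop_nat m)))) (by
      refine eq_empty_of_forall_notMem fun x hx => ?_
      have h1 : ∃ᶠ n in atTop, a n = x := frequently_atTop.2 fun m => by
        rcases mem_iInter.1 hx.2 m with h | ⟨n, hn⟩
        · exact absurd (h ▸ hx.1) hcon
        · exact ⟨n + m, by omega, hn⟩
      have h2 : r = x := tendsto_nhds_unique_of_frequently_eq har tendsto_const_nhds h1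
      obtain ⟨n, hn⟩ := h1.exists
      exact (ha n).2 (hn.trans h2.symm))
    (directed_of_isDirected_le fun m k h => insert_subset_insert (by
      rintro _ ⟨n, rfl⟩
      exact ⟨n + (k - m), congrArg a (by omega)⟩))
  exact (hm ▸ ⟨(ha (0 + m)).1, Or.inr ⟨0, rfl⟩⟩ : a (0 + m) ∈ (∅ : Set G))

theorem result : ∃ (I : Type) (X : I → Type) (_ : ∀ i, TopologicalSpace (X i)),
    (∀ i, CoSober (X i)) ∧ ¬ CoSober (∀ i, X i) := by
  refine ⟨{C // Cl C}, XC, inferInstance, fun C => cosober_of (XC_compact C), fun h => ?_⟩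
  obtain ⟨k, hk⟩ := h.2 (range dg) ⟨⟨⟨_, (fun _ => true : B), rfl⟩,
    by rw [← image_univ]; exact G_compact.image dg_ind.continuous, sat_t1 _⟩, by
      intro K L hK hL h
      have h1 : K ⊆ range dg := h ▸ subset_union_left
      have h2 : L ⊆ range dg := h ▸ subset_union_right
      refine ((Cl_of_compact ((dg_ind.isCompact_preimage_iff h1).2 hK.2.1)).irr
        (Cl_of_compact ((dg_ind.isCompact_preimage_iff h2).2 hL.2.1)) ?_).imp
        (fun h => subset_antisymm (preimage_eq_univ_iff.1 h) h1)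
        (fun h => subset_antisymm (preimage_eq_univ_iff.1 h) h2)
      refine eq_univ_of_forall fun x => ?_
      exact (h ▸ ⟨x, rfl⟩ : dg x ∈ K ∪ L)⟩
  rw [up_t1] at hk
  have h1 : dg (fun _ => true : B) = k := (hk ▸ ⟨_, rfl⟩ : dg (fun _ => true : B) ∈ ({k} : Set _))
  have h2 : dg (fun _ => false : B) = k := (hk ▸ ⟨_, rfl⟩ : dg (fun _ => false : B) ∈ ({k} : Set _))
  have := congrFun (congrFun (h1.trans h2.symm) ⟨univ, fun _ _ => trivial⟩) 0
  cases this

end Pool.Agent.Results.MP_8d849c_gt.NotProductive
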